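import Pool.Agent.Helper72.GP.GoalsB

/-!
# Project GP, packet ELIM
-/

set_option autoImplicit false

namespace Pool.Agent.Helper18.GP

open Finset Polynomial Pool.Agent.Helper72.GP
open scoped Polynomial.Bivariate Classical

theorem elim : ELIM := by
  intro f g e hf hfy hfg hfe hge
  have hrel : IsRelPrime f g := (Irreducible.isRelPrime_iff_not_dvd hf).2 hfg
  refine ⟨f.resultant g, Pool.Agent.Helper85.BL.resultant_ne_zero' hf.ne_zero hrel,
    Pool.Agent.Helper85.BL.natDegree_resultant_le hfe hge _ _, fun x y h1 h2 => ?_⟩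
  exact Pool.Agent.Helper85.BL.eval_resultant (p := (x, y)) le_rfl le_rfl
    (Or.inl (by omega)) h1 h2

end Pool.Agent.Helper18.GP
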